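import Mathlib

/-!
# d-to-1 games and monotone circuits: the base game

The vertices of the base game are `Fin n ⊕ Fin n`. The vertices `inl w` carry labels in
`ZMod q × Fin d`, of the labels of the vertices `inr v` only the first component is used. The edges
are the darts `e = (w, j)` of a set `E`, from `inl w` to `inr (g e)`.
-/

set_option autoImplicit false

namespace Pool.Agent.H537R4.DT

open Finset

/-- the vertices -/
abbrev Vx (n : ℕ) : Type := Fin n ⊕ Fin n

/-- the darts `(w, j)` -/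
abbrev Dart (n Δ : ℕ) : Type := Fin n × Fin Δ

/-- the labels -/
abbrev Lab (q d : ℕ) : Type := ZMod q × Fin d

/-- the darts of `E` with both ends in `S` -/
def ins {n Δ : ℕ} (E : Finset (Dart n Δ)) (g : Dart n Δ → Fin n) (S : Finset (Vx n)) :
    Finset (Dart n Δ) :=
  E.filter (fun e => Sum.inl e.1 ∈ S ∧ Sum.inr (g e) ∈ S)

/-- the degree of the vertex `x` inside `S` -/
def deg {n Δ : ℕ} (E : Finset (Dart n Δ)) (g : Dart n Δ → Fin n) (S : Finset (Vx n)) (x : Vx n) :
    ℕ :=
  ((ins E g S).filter (fun e => Sum.inl e.1 = x ∨ Sum.inr (g e) = x)).card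

/-- the constraint of the dart `e = (w, j)`: the label of `inr (g e)` is `z + s * j + b e`, where
`(z, s)` is the label of `inl w` -/
def Con {n Δ q d : ℕ} (g : Dart n Δ → Fin n) (b : Dart n Δ → ZMod q) (β : Vx n → Lab q d)
    (e : Dart n Δ) : Prop :=
  (β (Sum.inr (g e))).1 =
    (β (Sum.inl e.1)).1 + (((β (Sum.inl e.1)).2 : ℕ) : ZMod q) * ((e.2 : ℕ) : ZMod q) + b e

/-- no cycles through at most `T` of the vertices `inl w` -/
def NoCyc {n Δ : ℕ} (E : Finset (Dart n Δ)) (g : Dart n Δ → Fin n) (T : ℕ) : Prop :=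
  ∀ t, 1 ≤ t → t ≤ T → ¬ ∃ (w : ZMod t → Fin n) (j j' : ZMod t → Fin Δ), Function.Injective w ∧
    ∀ i, j i ≠ j' i ∧ (w i, j i) ∈ E ∧ (w i, j' i) ∈ E ∧ g (w i, j' i) = g (w (i + 1), j (i + 1))

end Pool.Agent.H537R4.DT
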