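import Pool.Agent.H537R4.DT.Defs

set_option autoImplicit false

/-! Stubs (statements only). -/

namespace Pool.Agent.H537R4.DT

open Finset

/-- CLO: closures -/
theorem closure_exists {X : Type} [Fintype X] [DecidableEq X] (f : Finset X → ℕ)
    (hsup : ∀ A B, f A + f B ≤ f (A ∪ B) + f (A ∩ B)) (hf0 : f ∅ = 0) {D s s0 : ℕ} (hD : 1 ≤ D)
    (hsparse : ∀ S : Finset X, S.card ≤ s0 → 2 * D * f S ≤ (2 * D + 1) * S.card) :
    ∃ cl : Finset X → Finset X, (∀ U, U ⊆ cl U) ∧ (∀ U U', U ⊆ U' → cl U ⊆ cl U') ∧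
      (∀ U Y, Disjoint (cl U) Y → Y.Nonempty → Y.card ≤ s →
        D * f (cl U ∪ Y) ≤ D * f (cl U) + (D + 1) * Y.card) ∧
      ∀ U, 2 * (D + 1) * U.card + s ≤ s0 → (cl U).card ≤ 2 * (D + 1) * U.card := sorry

/-- WALK: long walks through vertices of degree two -/
theorem walk_exists {X Ed : Type} [DecidableEq X] [DecidableEq Ed] (s t : Ed → X) (F : Finset Ed)
    (hst : ∀ e ∈ F, s e ≠ t e) (Y : Finset X) (hY : Y.Nonempty) {P D : ℕ} (hP : 1 ≤ P)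
    (hD : 16 * P ≤ D) (hdeg : ∀ x ∈ Y, 2 ≤ (F.filter (fun e => s e = x ∨ t e = x)).card)
    (hcount : D * (F.filter (fun e => s e ∈ Y ∨ t e ∈ Y)).card ≤ (D + 1) * Y.card) :
    ∃ (p : ℕ → X) (ε : ℕ → Ed),
      (∀ i, i < P → p i ∈ Y ∧ (F.filter (fun e => s e = p i ∨ t e = p i)).card = 2) ∧
      (∀ i, i + 1 < P → ε i ∈ F ∧
        ((s (ε i) = p i ∧ t (ε i) = p (i + 1)) ∨ (s (ε i) = p (i + 1) ∧ t (ε i) = p i))) ∧
      ∀ i, i + 2 < P → ε i ≠ ε (i + 1) := sorry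

/-- DIST: paths through vertices of degree two (uses `walk_exists`) -/
theorem path_exists {n Δ : ℕ} (E : Finset (Dart n Δ)) (g : Dart n Δ → Fin n)
    (S Y : Finset (Vx n)) (hYS : Y ⊆ S) (hY : Y.Nonempty) {T D : ℕ} (hT : 1 ≤ T)
    (hD : 64 * T ≤ D) (hdeg : ∀ x ∈ Y, 2 ≤ deg E g S x)
    (hcount : D * ((ins E g S).filter (fun e => Sum.inl e.1 ∈ Y ∨ Sum.inr (g e) ∈ Y)).card ≤
      (D + 1) * Y.card) (hcyc : NoCyc E g T) :
    ∃ (w : ℕ → Fin n) (j j' : ℕ → Fin Δ),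
      (∀ i, i < T → Sum.inl (w i) ∈ Y ∧ deg E g S (Sum.inl (w i)) = 2 ∧
        (w i, j i) ∈ ins E g S ∧ (w i, j' i) ∈ ins E g S ∧ j i ≠ j' i) ∧
      (∀ i, i + 1 < T → g (w i, j' i) = g (w (i + 1), j (i + 1)) ∧
        Sum.inr (g (w i, j' i)) ∈ Y ∧ deg E g S (Sum.inr (g (w i, j' i))) = 2) ∧
      (∀ i k, i < T → k < T → w i = w k → i = k) ∧
      ∀ i k, i + 1 < T → k + 1 < T → g (w i, j' i) = g (w k, j' k) → i = k := sorry

/-- FILL: filling in the labels of a path -/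
theorem fill {q d Δ T : ℕ} [Fact q.Prime] (hd : 2 ≤ d) (hΔ : Δ ≤ q) (hT : q ≤ T + 1)
    (j j' : ℕ → Fin Δ) (hj : ∀ i, i < T → j i ≠ j' i) (b b' : ℕ → ZMod q) (xs xe : ZMod q) :
    ∃ (z : ℕ → ZMod q) (s : ℕ → Fin d) (x : ℕ → ZMod q), x 0 = xs ∧ x T = xe ∧
      ∀ i, i < T → x i = z i + ((s i : ℕ) : ZMod q) * ((j i : ℕ) : ZMod q) + b i ∧
        x (i + 1) = z i + ((s i : ℕ) : ZMod q) * ((j' i : ℕ) : ZMod q) + b' i := sorry

/-- PEEL: extension of labellings (uses `path_exists`, `fill`) -/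
theorem peel {n Δ q d : ℕ} [Fact q.Prime] (hd : 2 ≤ d) (hΔ : Δ ≤ q) (E : Finset (Dart n Δ))
    (g : Dart n Δ → Fin n) (b : Dart n Δ → ZMod q) {T D : ℕ} (hT : q ≤ T + 1) (hT1 : 1 ≤ T)
    (hD : 64 * T ≤ D) (hcyc : NoCyc E g T) (C Y : Finset (Vx n)) (hCY : Disjoint C Y)
    (hsp : ∀ Y', Y' ⊆ Y → Y'.Nonempty →
      D * (ins E g (C ∪ Y')).card ≤ D * (ins E g C).card + (D + 1) * Y'.card)
    (β : Vx n → Lab q d) :
    ∃ β' : Vx n → Lab q d, (∀ x, x ∉ Y → β' x = β x) ∧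
      ∀ e ∈ ins E g (C ∪ Y), e ∉ ins E g C → Con g b β' e := sorry

open Classical in
/-- SPA: random graphs are sparse -/
theorem sparse_count (Δ D : ℕ) (hD : 1 ≤ D) : ∃ (η : ℝ) (n0 : ℕ), 0 < η ∧ ∀ n : ℕ, n0 ≤ n →
    2 * (univ.filter (fun g : Dart n Δ → Fin n => ∃ S : Finset (Vx n), (S.card : ℝ) ≤ η * n ∧
      (D + 1) * S.card < D * (ins univ g S).card)).card ≤
      Fintype.card (Dart n Δ → Fin n) := sorry

open Classical in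
/-- CYC: random graphs have few short cycles -/
theorem cycle_count (Δ T : ℕ) : ∃ c0 : ℕ, ∀ n : ℕ, 1 ≤ n →
    4 * (univ.filter (fun g : Dart n Δ → Fin n =>
      ¬ ∃ Bad : Finset (Dart n Δ), Bad.card ≤ c0 ∧ NoCyc (univ \ Bad) g T)).card ≤
      Fintype.card (Dart n Δ → Fin n) := sorry

open Classical in
/-- VAL: shifts for which no labelling satisfies many constraints -/
theorem value_small (d : ℕ) (hd : 1 ≤ d) {ε : ℝ} (hε : 0 < ε) : ∃ Δ q : ℕ, q.Prime ∧ 1 ≤ Δ ∧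
    Δ ≤ q ∧ ∀ n : ℕ, 1 ≤ n → ∀ (g : Dart n Δ → Fin n) (E : Finset (Dart n Δ)),
      n * Δ ≤ 2 * E.card → ∃ b : Dart n Δ → ZMod q, ∀ β : Vx n → Lab q d,
        ((E.filter (fun e => Con g b β e)).card : ℝ) < ε * E.card := sorry

/-- LOC: locally consistent assignments (uses `closure_exists`, `peel`) -/
theorem local_exists {n Δ q d : ℕ} [Fact q.Prime] (hd : 2 ≤ d) (hΔ : Δ ≤ q)
    (E : Finset (Dart n Δ)) (g : Dart n Δ → Fin n) (b : Dart n Δ → ZMod q) {T D s s0 c : ℕ}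
    (hT : q ≤ T + 1) (hT1 : 1 ≤ T) (hD : 64 * T ≤ D) (hcyc : NoCyc E g T)
    (hsparse : ∀ S : Finset (Vx n), S.card ≤ s0 →
      2 * D * (ins E g S).card ≤ (2 * D + 1) * S.card)
    (hc : 2 * (D + 1) * c ≤ s) (hs : 2 * (D + 1) * c + s ≤ s0) :
    ∃ Loc : Finset (Vx n) → (Vx n → Lab q d) → Prop,
      (∀ U α α', (∀ x ∈ U, α x = α' x) → Loc U α → Loc U α') ∧
      (∀ α, Loc ∅ α) ∧
      (∀ U U' α, U ⊆ U' → Loc U' α → Loc U α) ∧
      (∀ U U' α, U ⊆ U' → U'.card ≤ c → Loc U α → ∃ α', (∀ x ∈ U, α' x = α x) ∧ Loc U' α') ∧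
      ∀ e ∈ E, ∀ α, Loc {Sum.inl e.1, Sum.inr (g e)} α → Con g b α e := sorry

end Pool.Agent.H537R4.DT
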